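import Pool.Agent.H50.NC.Fin
import Pool.Agent.H1.NCK.X4
import Pool.Agent.H7.NCK.SEP
import Pool.Agent.H7.NCK.TYP
import Pool.Agent.H11.NCK.DB
import Pool.Agent.H21.NCK.TPA
import Pool.Agent.H34.NCK.SDX
import Pool.Agent.H34.NCK.SVX
import Pool.Agent.H35.NCK.LTW
import Pool.Agent.H38.NCK.X3
import Pool.Agent.H39.NCK.KZ
import Pool.Agent.H45.NCK.CN2
import Pool.Agent.H46.NCK.RB
import Pool.Agent.H49.NCK.FA
import Pool.Agent.H50.NCK.F1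
import Pool.Agent.H50.NCK.RED
import Pool.Agent.H54.NCK.EXT
import Pool.Agent.H54.NCK.F2
import Pool.Agent.H60.NCK.EXZ
import Pool.Agent.H60.NCK.NCK
import Pool.Agent.H60.NCK.PAA
import Pool.Agent.H60.NCK.PAF
import Pool.Agent.H60.NCK.PTA
import Pool.Agent.H60.NCK.PTF
import Pool.Agent.H61.NCK.PSF
import Pool.Agent.H63.NCK.RA
import Pool.Agent.H64.NCK.NCE
import Pool.Agent.H68.NCK.DTA
import Pool.Agent.H68.NCK.EVS
import Pool.Agent.H72.NCK.F3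
import Pool.Agent.H74.NCK.DC
import Pool.Agent.H77.NCK.ABN
import Pool.Agent.H77.NCK.DA

/-!
# MP_816b90_co: a smallest side contains no corner; composition of the rows
-/

set_option autoImplicit false

namespace Pool.Agent.H50.NC

open Pool.Agent.H48.ER Pool.Agent.H52.ER2 Pool.Agent.H48.ER2

theorem c_CN2 : T_CN2 := Pool.Agent.H45.NCK.pf_CN2
theorem c_SVX : T_SVX := Pool.Agent.H34.NCK.pf_SVX
theorem c_SDX : T_SDX := Pool.Agent.H34.NCK.pf_SDX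
theorem c_TPA : T_TPA := Pool.Agent.H21.NCK.pf_TPA
theorem c_DTA : T_DTA := Pool.Agent.H68.NCK.pf_DTA
theorem c_TYP : T_TYP := Pool.Agent.H7.NCK.pf_TYP
theorem c_ABN : T_ABN := Pool.Agent.H77.NCK.pf_ABN
theorem c_EXT : T_EXT := Pool.Agent.H54.NCK.pf_EXT
theorem c_EXZ : T_EXZ := Pool.Agent.H60.NCK.pf_EXZ
theorem c_PAA : T_PAA := Pool.Agent.H60.NCK.pf_PAA
theorem c_PAF : T_PAF := Pool.Agent.H60.NCK.pf_PAF
theorem c_PTA : T_PTA := Pool.Agent.H60.NCK.pf_PTA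
theorem c_PTF : T_PTF := Pool.Agent.H60.NCK.pf_PTF
theorem c_F2 : T_F2 := Pool.Agent.H54.NCK.pf_F2
theorem c_F3 : T_F3 := Pool.Agent.H72.NCK.pf_F3
theorem c_LTW : T_LTW := Pool.Agent.H35.NCK.pf_LTW c_CN2
theorem c_SEP : T_SEP := Pool.Agent.H7.NCK.pf_SEP c_LTW c_DTA
theorem c_EVS : T_EVS := Pool.Agent.H68.NCK.pf_EVS c_TYP
theorem c_KZ : T_KZ := Pool.Agent.H39.NCK.pf_KZ c_ABN
theorem c_PSF : T_PSF := Pool.Agent.H61.NCK.pf_PSF c_EXZ
theorem c_DA : T_DA := Pool.Agent.H77.NCK.pf_DA c_SDX c_TPA c_SEP c_PTA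
theorem c_DB : T_DB := Pool.Agent.H11.NCK.pf_DB c_SDX c_TPA c_PTA c_PTF
theorem c_DC : T_DC := Pool.Agent.H74.NCK.pf_DC c_LTW c_SDX c_TPA c_DTA c_EXT c_PSF c_PTA c_PTF
theorem c_RA : T_RA := Pool.Agent.H63.NCK.pf_RA c_EXT c_PAA c_DA
theorem c_F1 : T_F1 := Pool.Agent.H50.NCK.pf_F1 c_TYP c_KZ
theorem c_RB : T_RB := Pool.Agent.H46.NCK.pf_RB c_EXT c_PAA c_PAF c_PSF c_DB
theorem c_RED : T_RED := Pool.Agent.H50.NCK.pf_RED c_RA c_RB c_DC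
theorem c_FA : T_FA := Pool.Agent.H49.NCK.pf_FA c_TYP c_ABN
theorem c_X3 : T_X3 := Pool.Agent.H38.NCK.pf_X3 c_TYP c_SVX c_F1 c_F2 c_F3 c_FA
theorem c_X4 : T_X4 := Pool.Agent.H1.NCK.pf_X4 c_TYP c_F1 c_F2 c_F3 c_FA
theorem c_NCK : T_NCK := Pool.Agent.H60.NCK.pf_NCK c_EVS c_RED c_X3 c_X4
theorem c_NCE : T_NCE := Pool.Agent.H64.NCK.pf_NCE c_SDX c_NCK
theorem c_XX : T_XX := pf_XX c_TYP c_F1 c_F2 c_F3 c_FA

/-- in a graph of the class without clique of size four which contains a prism there is a vertex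
which is not a corner, tame, and whose neighbourhood is not a clique -/
theorem c_NCT : T_NCT := pf_NCT c_NCE c_XX

end Pool.Agent.H50.NC
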