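import Pool.Agent.H50.NC.Targets
import Pool.Agent.H48.ER2.Top

/-!
# MP_816b90_co: graphs without clique of size four: a vertex which is not a corner and tame
-/

set_option autoImplicit false

namespace Pool.Agent.H50.NC

open Pool.Agent.H48.ER Pool.Agent.H52.ER2 Pool.Agent.H48.ER2

variable {V : Type}

theorem Sd.flip {G : SimpleGraph V} {a b : Fin 3 → V} {n : Fin 3 → ℕ} {P : Fin 3 → Set V}
    {i : Fin 3} {S : Set V} (h : Sd G a b n P i S) : Sd G b a n P i S where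
  pr := ⟨h.pr.1.flip, h.pr.2⟩
  cn := h.cn
  int := fun v hv h1 h2 => h.int v hv h2 h1
  ne := h.ne
  mx := h.mx

/-- (XX) the neighbours of a side do not contain two edges without edges between them. -/
def T_XX : Prop := ∀ (V : Type) (G : SimpleGraph V) (a b : Fin 3 → V) (n : Fin 3 → ℕ)
  (P : Fin 3 → Set V) (i : Fin 3) (S : Set V) (y z y' z' : V), NOH G → NOP G → NK4 G →
  Sd G a b n P i S → Nb G S y → Nb G S z → Nb G S y' → Nb G S z' → G.Adj y z → G.Adj y' z' →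
  y ≠ y' → y ≠ z' → z ≠ y' → z ≠ z' → ¬ G.Adj y y' → ¬ G.Adj y z' → ¬ G.Adj z y' →
  ¬ G.Adj z z' → False

/-- the two other indices -/
theorem two_others (i : Fin 3) : ∃ j k : Fin 3, j ≠ i ∧ k ≠ i ∧ j ≠ k := by
  fin_cases i
  · exact ⟨1, 2, by decide, by decide, by decide⟩
  · exact ⟨0, 2, by decide, by decide, by decide⟩
  · exact ⟨0, 1, by decide, by decide, by decide⟩

/-- three vertices `M`, `O`, `N`: `M` and `O` adjacent, `N` not adjacent to both, `M` and `N`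
majors -/
theorem xx_core (hTYP : T_TYP) (hF1 : T_F1) (hF2 : T_F2) (hF3 : T_F3) {G : SimpleGraph V}
    {a b : Fin 3 → V} {n : Fin 3 → ℕ} {P : Fin 3 → Set V} {i : Fin 3} {S : Set V}
    (h1 : NOH G) (h2 : NOP G) (h4 : NK4 G) (hS : Sd G a b n P i S) {M O N : V}
    (hM : Nb G S M) (hO : Nb G S O) (hN : Nb G S N) (hMO : G.Adj M O)
    (hNM : N ≠ M) (hNO : N ≠ O) (aNM : ¬ G.Adj N M) (aNO : ¬ G.Adj N O)
    (mM : Mj G a i M ∧ Mj G b i M) (mN : Mj G a i N ∧ Mj G b i N) : False := by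
  obtain ⟨j, k, hj, hk, hjk⟩ := two_others i
  have eM := hF2 V G a b n P i S N M h1 h4 hS hN hM hNM aNM mN.1 mN.2 mM.1 mM.2
  rcases hTYP V G a b n P i S O h1 h2 hS hO with h | h | h
  · have eN := hF1 V G a b n P i S O N h1 h2 hS hO h hN aNO mN.1 mN.2
    have key : ∀ j, j ≠ i → G.Adj M (a j) ∧ G.Adj O (a j) := fun j hj =>
      ⟨(eM j).1 (eN j hj), (h (a j) ⟨j, hj, hS.pr.1.a_mem j⟩).2 ⟨j, hj, rfl⟩⟩
    exact h4 M O (a j) (a k) hMO (key j hj).1 (key k hk).1 (key j hj).2 (key k hk).2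
      (hS.pr.1.a_adj hjk)
  · have eM' := hF2 V G b a n P i S N M h1 h4 hS.flip hN hM hNM aNM mN.2 mN.1 mM.2 mM.1
    have eN := hF1 V G b a n P i S O N h1 h2 hS.flip hO h hN aNO mN.2 mN.1
    have key : ∀ j, j ≠ i → G.Adj M (b j) ∧ G.Adj O (b j) := fun j hj =>
      ⟨(eM' j).1 (eN j hj), (h (b j) ⟨j, hj, hS.pr.1.b_mem j⟩).2 ⟨j, hj, rfl⟩⟩
    exact h4 M O (b j) (b k) hMO (key j hj).1 (key k hk).1 (key j hj).2 (key k hk).2
      (hS.pr.1.b_adj hjk)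
  · have eO := hF2 V G a b n P i S N O h1 h4 hS hN hO hNO aNO mN.1 mN.2 h.1 h.2
    exact hF3 V G a b n P i S M O h4 hS hMO mM.1 h.1 fun j => (eM j).symm.trans (eO j)

theorem pf_XX (hTYP : T_TYP) (hF1 : T_F1) (hF2 : T_F2) (hF3 : T_F3) (hFA : T_FA) : T_XX := by
  intro V G a b n P i S y z y' z' h1 h2 h4 hS hy hz hy' hz' hyz hyz' n1 n2 n3 n4 a1 a2 a3 a4
  rcases hFA V G a b n P i S y z h1 h2 h4 hS hy hz hyz with m | m
  · rcases hFA V G a b n P i S y' z' h1 h2 h4 hS hy' hz' hyz' with m' | m'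
    · exact xx_core hTYP hF1 hF2 hF3 h1 h2 h4 hS hy hz hy' hyz n1.symm n3.symm
        (fun h => a1 h.symm) (fun h => a3 h.symm) m m'
    · exact xx_core hTYP hF1 hF2 hF3 h1 h2 h4 hS hy hz hz' hyz n2.symm n4.symm
        (fun h => a2 h.symm) (fun h => a4 h.symm) m m'
  · rcases hFA V G a b n P i S y' z' h1 h2 h4 hS hy' hz' hyz' with m' | m'
    · exact xx_core hTYP hF1 hF2 hF3 h1 h2 h4 hS hz hy hy' hyz.symm n3.symm n1.symm
        (fun h => a3 h.symm) (fun h => a1 h.symm) m m'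
    · exact xx_core hTYP hF1 hF2 hF3 h1 h2 h4 hS hz hy hz' hyz.symm n4.symm n2.symm
        (fun h => a4 h.symm) (fun h => a2 h.symm) m m'

/-- corners of the two triangles of an even prism are not adjacent -/
theorem epr_ab_nadj {G : SimpleGraph V} {a b : Fin 3 → V} {n : Fin 3 → ℕ} {P : Fin 3 → Set V}
    (h : EPr G a b n P) (i k : Fin 3) : ¬ G.Adj (a i) (b k) := by
  intro hadj
  by_cases e : i = k
  · subst e
    have h1 := (h.1.ip i).adj_iff.1 hadj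
    have h2 := h.2 i
    rw [h1] at h2
    exact absurd h2 (by decide)
  · rcases (h.1.adj i k e _ (h.1.a_mem i) _ (h.1.b_mem k)).1 hadj with ⟨_, h2⟩ | ⟨h2, _⟩
    · exact h.1.a_ne_b k k h2.symm
    · exact h.1.a_ne_b i i h2

theorem pf_NCT (hNCE : T_NCE) (hXX : T_XX) : T_NCT := by
  intro V _ G a b n P hG hK hP
  have hev : ∀ (a b : Fin 3 → V) (n : Fin 3 → ℕ) (P : Fin 3 → Set V), Prism G a b n P →
      EPr G a b n P := fun a b n P h => ⟨h, (c_EVN V G a b n P hG.noh h).2 hG.nop⟩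
  obtain ⟨a', b', n', P', i, S, v, hS, hvS, hvP, hva, hvb, hmin⟩ :=
    hNCE V G a b n P hG.noh hG.nop hK (hev a b n P hP)
  refine ⟨v, ?_, ?_, ?_⟩
  · intro a2 b2 n2 P2 hP2 j
    obtain ⟨h1, h2⟩ := hmin a2 b2 n2 P2 j (hev a2 b2 n2 P2 hP2)
    exact ⟨fun e => h1 (e ▸ hvS), fun e => h2 (e ▸ hvS)⟩
  · rintro a2 b2 n2 P2 hP2 hv2 ⟨⟨j, k, hjk, hj, hk⟩, p, q, hpq, hp, hq⟩
    have hE := hev a2 b2 n2 P2 hP2
    have nba : ∀ j, G.Adj v (a2 j) → Nb G S (a2 j) := fun j hj =>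
      ⟨(hmin a2 b2 n2 P2 j hE).1, v, hvS, hj.symm⟩
    have nbb : ∀ j, G.Adj v (b2 j) → Nb G S (b2 j) := fun j hj =>
      ⟨(hmin a2 b2 n2 P2 j hE).2, v, hvS, hj.symm⟩
    exact hXX V G a' b' n' P' i S (a2 j) (a2 k) (b2 p) (b2 q) hG.noh hG.nop hK hS
      (nba j hj) (nba k hk) (nbb p hp) (nbb q hq) (hP2.a_adj hjk) (hP2.b_adj hpq)
      (hP2.a_ne_b _ _) (hP2.a_ne_b _ _) (hP2.a_ne_b _ _) (hP2.a_ne_b _ _)
      (epr_ab_nadj hE _ _)
      (epr_ab_nadj hE _ _) (epr_ab_nadj hE _ _) (epr_ab_nadj hE _ _)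
  · intro hcl
    obtain ⟨u, hu, w, hw, huw, hnuw, hadj⟩ :=
      (c_DEG V G a' b' n' P' hS.pr.1).2.2 i v hvP hva hvb
    exact hnuw (hcl u ((hadj u ⟨i, hu⟩).2 (Or.inl rfl)) w ((hadj w ⟨i, hw⟩).2 (Or.inr rfl)) huw)

end Pool.Agent.H50.NC
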