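import Pool.Agent.H48.ER.All

/-!
# Everett-Reed for graphs without complete subgraphs on four vertices: minimal sides contain no corners

Vocabulary of `H48/ER` (chordless paths `IP`, `NOH`, `NOP`, `Prism`, `EPr`, `Cn`).
-/

set_option autoImplicit false

namespace Pool.Agent.H50.NC

open Pool.Agent.H48.ER

variable {V : Type}

/-- no complete subgraph with four vertices -/
def NK4 (G : SimpleGraph V) : Prop :=
  ∀ a b c d : V, G.Adj a b → G.Adj a c → G.Adj a d → G.Adj b c → G.Adj b d → G.Adj c d → False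

/-- the union of the rungs different from the rung `i` -/
def Xr (P : Fin 3 → Set V) (i : Fin 3) : Set V := {v | ∃ j, j ≠ i ∧ v ∈ P j}

/-- `S` is the side `i` of the even prism: the component of `G - N[X]` which contains the interior of
the rung `i`, where `X` is the union of the two other rungs -/
structure Sd (G : SimpleGraph V) (a b : Fin 3 → V) (n : Fin 3 → ℕ) (P : Fin 3 → Set V) (i : Fin 3)
    (S : Set V) : Prop where
  pr : EPr G a b n P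
  cn : Cn G S
  int : ∀ v ∈ P i, v ≠ a i → v ≠ b i → v ∈ S
  ne : ∀ s ∈ S, ∀ v ∈ Xr P i, s ≠ v ∧ ¬ G.Adj s v
  mx : ∀ s ∈ S, ∀ v, v ∉ S → G.Adj s v → ∃ w ∈ Xr P i, G.Adj v w

/-- `v` is a neighbour of the set `S` -/
def Nb (G : SimpleGraph V) (S : Set V) (v : V) : Prop := v ∉ S ∧ ∃ s ∈ S, G.Adj v s

/-- the neighbours of `w` in the rungs different from `i` are the two corners `a j`, `j ≠ i` -/
def Al (G : SimpleGraph V) (a : Fin 3 → V) (P : Fin 3 → Set V) (i : Fin 3) (w : V) : Prop :=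
  ∀ v ∈ Xr P i, (G.Adj w v ↔ ∃ j, j ≠ i ∧ v = a j)

/-- `w` sees at least two of the corners `a j` -/
def Mj (G : SimpleGraph V) (a : Fin 3 → V) (i : Fin 3) (w : V) : Prop :=
  (∀ j, j ≠ i → G.Adj w (a j)) ∨ (G.Adj w (a i) ∧ ∃ j, j ≠ i ∧ G.Adj w (a j))

/-- a connected set `S` and a connected set `X` on the other side of `N(S)`, which sees every
neighbour of `S`; all paths through `S` between nonadjacent neighbours of `S` are even -/
structure SX (G : SimpleGraph V) (S X : Set V) : Prop where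
  cS : Cn G S
  cX : Cn G X
  ne : ∀ s ∈ S, ∀ x ∈ X, s ≠ x ∧ ¬ G.Adj s x
  att : ∀ t, Nb G S t → ∃ x ∈ X, G.Adj t x
  ev : ∀ (l : ℕ) (x y : V) (R : Set V), Nb G S x → Nb G S y → ¬ G.Adj x y → IP G l x y R →
    (∀ v ∈ R, v = x ∨ v = y ∨ v ∈ S) → Even l

/-- the first vertex outside of `S` on the path `P`, starting at its end `a`, is `x`, at distance
`r` from `a` -/
def Ex (G : SimpleGraph V) (S P : Set V) (a : V) (r : ℕ) (x : V) : Prop :=
  ∃ R, IP G r a x R ∧ R ⊆ P ∧ x ∉ S ∧ ∀ v ∈ R, v = x ∨ v ∈ S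

/-- all vertices of `P` except `b` are in `S` -/
def Bx (S P : Set V) (b : V) : Prop := b ∉ S ∧ ∀ v ∈ P, v = b ∨ v ∈ S

/-! ### A. Even prisms and connected sets -/

/-- (CN2) a path between two rungs. -/
def T_CN2 : Prop := ∀ (V : Type) (G : SimpleGraph V) (a b : Fin 3 → V) (n : Fin 3 → ℕ)
  (P : Fin 3 → Set V) (i j : Fin 3) (l : ℕ) (d d' g h : V) (R : Set V), NOH G → NOP G →
  EPr G a b n P → i ≠ j → Cnr G P i j l d d' R → g ∈ P i → G.Adj d g → h ∈ P j → G.Adj d' h →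
  (G.Adj d (a i) ∧ G.Adj d' (a j)) ∨ (G.Adj d (b i) ∧ G.Adj d' (b j))

/-- (LTW) a connected set such that every vertex sees at most one rung. -/
def T_LTW : Prop := ∀ (V : Type) (G : SimpleGraph V) (a b : Fin 3 → V) (n : Fin 3 → ℕ)
  (P : Fin 3 → Set V) (D : Set V) (i j : Fin 3) (d d' g h : V), NOH G → NOP G → EPr G a b n P →
  Cn G D → (∀ d ∈ D, d ∉ ver P) →
  (∀ d ∈ D, ∀ (i j : Fin 3) (g h : V), g ∈ P i → h ∈ P j → G.Adj d g → G.Adj d h → i = j) →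
  i ≠ j → d ∈ D → g ∈ P i → g ≠ a i → g ≠ b i → G.Adj d g → d' ∈ D → h ∈ P j → G.Adj d' h → False

/-- (SVX) a vertex outside of an even prism with an attachment at odd distance. -/
def T_SVX : Prop := ∀ (V : Type) (G : SimpleGraph V) (a b : Fin 3 → V) (n : Fin 3 → ℕ)
  (P : Fin 3 → Set V) (i j k : Fin 3) (r : ℕ) (x f : V) (R : Set V), NOH G → NOP G →
  EPr G a b n P → i ≠ j → i ≠ k → j ≠ k → f ∉ ver P → IP G r (a i) x R → R ⊆ P i → Odd r →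
  (∀ v ∈ R, G.Adj f v ↔ v = x) → G.Adj f (a j) → ¬ G.Adj f (a k) → False

/-! ### B. Sides -/

/-- (SDX) existence of sides. -/
def T_SDX : Prop := ∀ (V : Type) (G : SimpleGraph V) (a b : Fin 3 → V) (n : Fin 3 → ℕ)
  (P : Fin 3 → Set V) (i : Fin 3), EPr G a b n P → ∃ S, Sd G a b n P i S

/-- (TPA) a path from the corner to a vertex of the side outside of `S`. -/
def T_TPA : Prop := ∀ (V : Type) (G : SimpleGraph V) (a b : Fin 3 → V) (n : Fin 3 → ℕ)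
  (P : Fin 3 → Set V) (i : Fin 3) (S T : Set V), Sd G a b n P i T → a i ∈ S → ¬ T ⊆ S →
  ∃ (t : V) (p : ℕ) (R : Set V), t ∈ T ∧ t ∉ S ∧ IP G p (a i) t R ∧ 1 ≤ p ∧
    (∀ v ∈ R, v = t ∨ v ∈ S) ∧ ∀ v ∈ R, v = a i ∨ v ∈ T

/-- (DTA) a connected part of the side outside of the rung, with an attachment in the interior of the
rung. -/
def T_DTA : Prop := ∀ (V : Type) (G : SimpleGraph V) (a b : Fin 3 → V) (n : Fin 3 → ℕ)
  (P : Fin 3 → Set V) (i : Fin 3) (T : Set V) (t : V), Sd G a b n P i T → t ∈ T → t ∉ P i →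
  ∃ D, Cn G D ∧ t ∈ D ∧ D ⊆ T ∧ (∀ d ∈ D, d ∉ P i) ∧
    ∃ d ∈ D, ∃ g ∈ P i, g ≠ a i ∧ g ≠ b i ∧ G.Adj d g

/-- (SEP) different sides of a prism. -/
def T_SEP : Prop := ∀ (V : Type) (G : SimpleGraph V) (a b : Fin 3 → V) (n : Fin 3 → ℕ)
  (P : Fin 3 → Set V) (i j : Fin 3) (S T : Set V), NOH G → NOP G → i ≠ j → Sd G a b n P i S →
  Sd G a b n P j T → ∀ u ∈ S, ∀ v ∈ T, u ≠ v ∧ ¬ G.Adj u v

/-- (TYP) the three types of neighbours of a side. -/
def T_TYP : Prop := ∀ (V : Type) (G : SimpleGraph V) (a b : Fin 3 → V) (n : Fin 3 → ℕ)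
  (P : Fin 3 → Set V) (i : Fin 3) (S : Set V) (w : V), NOH G → NOP G → Sd G a b n P i S →
  Nb G S w → Al G a P i w ∨ Al G b P i w ∨ (Mj G a i w ∧ Mj G b i w)

/-- (ABN) vertices of the first and of the second type are not adjacent. -/
def T_ABN : Prop := ∀ (V : Type) (G : SimpleGraph V) (a b : Fin 3 → V) (n : Fin 3 → ℕ)
  (P : Fin 3 → Set V) (i : Fin 3) (S : Set V) (w w' : V), NOH G → Sd G a b n P i S →
  Nb G S w → Nb G S w' → Al G a P i w → Al G b P i w' → ¬ G.Adj w w'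

/-- (EVS) all paths through a side between nonadjacent neighbours of the side are even. -/
def T_EVS : Prop := ∀ (V : Type) (G : SimpleGraph V) (a b : Fin 3 → V) (n : Fin 3 → ℕ)
  (P : Fin 3 → Set V) (i : Fin 3) (S : Set V), NOH G → NOP G → Sd G a b n P i S →
  SX G S (Xr P i)

/-- (KZ) a vertex of the first type can replace the corner `a i`. -/
def T_KZ : Prop := ∀ (V : Type) (G : SimpleGraph V) (a b : Fin 3 → V) (n : Fin 3 → ℕ)
  (P : Fin 3 → Set V) (i : Fin 3) (S : Set V) (z : V), NOH G → NOP G → Sd G a b n P i S →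
  Nb G S z → Al G a P i z → ∃ (a' : Fin 3 → V) (n' : Fin 3 → ℕ) (P' : Fin 3 → Set V),
    Sd G a' b n' P' i S ∧ a' i = z ∧ ∀ j, j ≠ i → a' j = a j ∧ P' j = P j

/-! ### C. Exits -/

/-- (EXT) existence of the exit. -/
def T_EXT : Prop := ∀ (V : Type) (G : SimpleGraph V) (n : ℕ) (a b : V) (P S : Set V),
  IP G n a b P → ¬ P ⊆ S → ∃ (r : ℕ) (x : V), Ex G S P a r x ∧ r ≤ n ∧ x ∈ P ∧ (x = b ↔ r = n) ∧
    (x = a ↔ r = 0) ∧ (x = b → Bx S P b)

/-- (EXZ) the exits at both ends. -/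
def T_EXZ : Prop := ∀ (V : Type) (G : SimpleGraph V) (n r t : ℕ) (a b x z : V) (P S : Set V),
  IP G n a b P → Ex G S P a r x → Ex G S P b t z → (x = z ∧ r + t = n) ∨
    (G.Adj x z ∧ r + t + 1 = n ∧ ∀ v ∈ P, v = x ∨ v = z ∨ v ∈ S) ∨
    (x ≠ z ∧ ¬ G.Adj x z ∧ ∃ R T, IP G r a x R ∧ R ⊆ P ∧ (∀ v ∈ R, v = x ∨ v ∈ S) ∧
      IP G t b z T ∧ T ⊆ P ∧ (∀ v ∈ T, v = z ∨ v ∈ S) ∧ Disjoint R T ∧ NE G R T)

/-- (PAA) two exits on the `a`-side. -/
def T_PAA : Prop := ∀ (V : Type) (G : SimpleGraph V) (a b : Fin 3 → V) (n : Fin 3 → ℕ)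
  (P : Fin 3 → Set V) (i j : Fin 3) (S X : Set V) (r t : ℕ) (x z : V), EPr G a b n P →
  SX G S X → i ≠ j → Ex G S (P i) (a i) r x → Ex G S (P j) (a j) t z → (a i ∈ S ∨ a j ∈ S) →
  ¬ G.Adj x z → Odd (r + t)

/-- (PAF) exits on the `a`-side and on the `b`-side and a full rung `f`, different rungs. (False for
`x = b i` or `z = a j`, because of the chords.) -/
def T_PAF : Prop := ∀ (V : Type) (G : SimpleGraph V) (a b : Fin 3 → V) (n : Fin 3 → ℕ)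
  (P : Fin 3 → Set V) (i j f : Fin 3) (S X : Set V) (r t : ℕ) (x z : V), EPr G a b n P →
  SX G S X → i ≠ j → f ≠ i → f ≠ j → P f ⊆ S → Ex G S (P i) (a i) r x →
  Ex G S (P j) (b j) t z → x ≠ b i → z ≠ a j → Even (r + t)

/-- (PSF) exits of the same rung and a full rung. -/
def T_PSF : Prop := ∀ (V : Type) (G : SimpleGraph V) (a b : Fin 3 → V) (n : Fin 3 → ℕ)
  (P : Fin 3 → Set V) (i f : Fin 3) (S X : Set V) (r t : ℕ) (x z : V), EPr G a b n P →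
  SX G S X → f ≠ i → P f ⊆ S → Ex G S (P i) (a i) r x → Ex G S (P i) (b i) t z →
  ¬ (G.Adj x z ∧ r + t + 1 = n i ∧ ∀ v ∈ P i, v = x ∨ v = z ∨ v ∈ S) → Even (r + t)

/-- (PTA) a vertex of the side `i` and an exit on the `a`-side of the rung `j`. -/
def T_PTA : Prop := ∀ (V : Type) (G : SimpleGraph V) (a b : Fin 3 → V) (n : Fin 3 → ℕ)
  (P : Fin 3 → Set V) (i j : Fin 3) (S X T R : Set V) (p r : ℕ) (t x : V), SX G S X →
  Sd G a b n P i T → i ≠ j → a i ∈ S → t ∈ T → t ∉ S → IP G p (a i) t R → 1 ≤ p →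
  (∀ v ∈ R, v = t ∨ v ∈ S) → (∀ v ∈ R, v = a i ∨ v ∈ T) → Ex G S (P j) (a j) r x → Odd (p + r)

/-- (PTF) a vertex of the side `i`, a full rung `f` and an exit on the `b`-side of the rung `j`. -/
def T_PTF : Prop := ∀ (V : Type) (G : SimpleGraph V) (a b : Fin 3 → V) (n : Fin 3 → ℕ)
  (P : Fin 3 → Set V) (i j f : Fin 3) (S X T R : Set V) (p r : ℕ) (t x : V), SX G S X →
  Sd G a b n P i T → i ≠ j → f ≠ i → f ≠ j → a i ∈ S → P f ⊆ S → t ∈ T → t ∉ S →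
  IP G p (a i) t R → 1 ≤ p → (∀ v ∈ R, v = t ∨ v ∈ S) → (∀ v ∈ R, v = a i ∨ v ∈ T) →
  Ex G S (P j) (b j) r x → x ≠ a j → Even (p + r)

/-! ### D. The reduction -/

/-- the case (III) -/
def C3 (G : SimpleGraph V) (S : Set V) : Prop :=
  ∃ (a b : Fin 3 → V) (n : Fin 3 → ℕ) (P : Fin 3 → Set V) (r : ℕ) (x : V), EPr G a b n P ∧
    a 0 ∈ S ∧ a 1 ∉ S ∧ a 2 ∉ S ∧ Ex G S (P 0) (a 0) r x ∧ Odd r ∧ x ≠ b 0 ∧ x ∈ P 0

/-- the case (1,1) -/
def C4 (G : SimpleGraph V) (S : Set V) : Prop :=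
  ∃ (a b : Fin 3 → V) (n : Fin 3 → ℕ) (P : Fin 3 → Set V), EPr G a b n P ∧ P 0 ⊆ S ∧
    a 1 ∉ S ∧ a 2 ∉ S ∧ b 1 ∉ S ∧ b 2 ∉ S

/-- a smaller side -/
def Sm (G : SimpleGraph V) (S : Set V) : Prop :=
  ∃ (a b : Fin 3 → V) (n : Fin 3 → ℕ) (P : Fin 3 → Set V) (i : Fin 3) (T : Set V),
    Sd G a b n P i T ∧ T ⊆ S ∧ T ≠ S

/-- (DA) two rungs in `S` up to the last vertex; the third one leaves `S` at odd distance or at its
last vertex. -/
def T_DA : Prop := ∀ (V : Type) (G : SimpleGraph V) (a b : Fin 3 → V) (n : Fin 3 → ℕ)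
  (P : Fin 3 → Set V) (S X : Set V), NOH G → NOP G → EPr G a b n P → SX G S X →
  Bx S (P 0) (b 0) → Bx S (P 1) (b 1) → (Bx S (P 2) (b 2) ∨ ∃ r x, Ex G S (P 2) (a 2) r x ∧ Odd r) →
  Sm G S

/-- (DB) one rung in `S`, the two others up to the last vertex. -/
def T_DB : Prop := ∀ (V : Type) (G : SimpleGraph V) (a b : Fin 3 → V) (n : Fin 3 → ℕ)
  (P : Fin 3 → Set V) (S X : Set V), EPr G a b n P → SX G S X → P 0 ⊆ S → Bx S (P 1) (b 1) →
  Bx S (P 2) (b 2) → Sm G S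

/-- (DC) two rungs in `S`. -/
def T_DC : Prop := ∀ (V : Type) (G : SimpleGraph V) (a b : Fin 3 → V) (n : Fin 3 → ℕ)
  (P : Fin 3 → Set V) (S X : Set V), NOH G → NOP G → EPr G a b n P → SX G S X → P 0 ⊆ S →
  P 1 ⊆ S → Sm G S

/-- (RA) no rung in `S`. -/
def T_RA : Prop := ∀ (V : Type) (G : SimpleGraph V) (a b : Fin 3 → V) (n : Fin 3 → ℕ)
  (P : Fin 3 → Set V) (S X : Set V) (j : Fin 3), NOH G → NOP G → EPr G a b n P → SX G S X →
  a j ∈ S → (∀ i, ¬ P i ⊆ S) → C3 G S ∨ Sm G S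

/-- (RB) exactly one rung in `S`. -/
def T_RB : Prop := ∀ (V : Type) (G : SimpleGraph V) (a b : Fin 3 → V) (n : Fin 3 → ℕ)
  (P : Fin 3 → Set V) (S X : Set V), NOH G → NOP G → EPr G a b n P → SX G S X →
  P 0 ⊆ S → ¬ P 1 ⊆ S → ¬ P 2 ⊆ S → C4 G S ∨ Sm G S

/-- (RED) the reduction. -/
def T_RED : Prop := ∀ (V : Type) (G : SimpleGraph V) (a b : Fin 3 → V) (n : Fin 3 → ℕ)
  (P : Fin 3 → Set V) (S X : Set V) (j : Fin 3), NOH G → NOP G → EPr G a b n P → SX G S X →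
  a j ∈ S → C3 G S ∨ C4 G S ∨ Sm G S

/-! ### E. No complete subgraph with four vertices -/

/-- (F1) the first fact. -/
def T_F1 : Prop := ∀ (V : Type) (G : SimpleGraph V) (a b : Fin 3 → V) (n : Fin 3 → ℕ)
  (P : Fin 3 → Set V) (i : Fin 3) (S : Set V) (z w : V), NOH G → NOP G → Sd G a b n P i S →
  Nb G S z → Al G a P i z → Nb G S w → ¬ G.Adj w z → Mj G a i w → Mj G b i w →
  ∀ j, j ≠ i → G.Adj w (a j)

/-- (F2) nonadjacent majors. -/
def T_F2 : Prop := ∀ (V : Type) (G : SimpleGraph V) (a b : Fin 3 → V) (n : Fin 3 → ℕ)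
  (P : Fin 3 → Set V) (i : Fin 3) (S : Set V) (w w' : V), NOH G → NK4 G → Sd G a b n P i S →
  Nb G S w → Nb G S w' → w ≠ w' → ¬ G.Adj w w' → Mj G a i w → Mj G b i w → Mj G a i w' →
  Mj G b i w' → ∀ j, G.Adj w (a j) ↔ G.Adj w' (a j)

/-- (F3) adjacent majors. -/
def T_F3 : Prop := ∀ (V : Type) (G : SimpleGraph V) (a b : Fin 3 → V) (n : Fin 3 → ℕ)
  (P : Fin 3 → Set V) (i : Fin 3) (S : Set V) (w w' : V), NK4 G → Sd G a b n P i S →
  G.Adj w w' → Mj G a i w → Mj G a i w' → ¬ ∀ j, G.Adj w (a j) ↔ G.Adj w' (a j)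

/-- (FA) two adjacent neighbours of the side: one of them is a major. -/
def T_FA : Prop := ∀ (V : Type) (G : SimpleGraph V) (a b : Fin 3 → V) (n : Fin 3 → ℕ)
  (P : Fin 3 → Set V) (i : Fin 3) (S : Set V) (w w' : V), NOH G → NOP G → NK4 G →
  Sd G a b n P i S → Nb G S w → Nb G S w' → G.Adj w w' →
  (Mj G a i w ∧ Mj G b i w) ∨ (Mj G a i w' ∧ Mj G b i w')

/-- (X3) the case (III) is impossible. -/
def T_X3 : Prop := ∀ (V : Type) (G : SimpleGraph V) (a b : Fin 3 → V) (n : Fin 3 → ℕ)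
  (P : Fin 3 → Set V) (i : Fin 3) (S : Set V), NOH G → NOP G → NK4 G → Sd G a b n P i S →
  ¬ C3 G S

/-- (X4) the case (1,1) is impossible. -/
def T_X4 : Prop := ∀ (V : Type) (G : SimpleGraph V) (a b : Fin 3 → V) (n : Fin 3 → ℕ)
  (P : Fin 3 → Set V) (i : Fin 3) (S : Set V), NOH G → NOP G → NK4 G → Sd G a b n P i S →
  ¬ C4 G S

/-- (NCK) a smallest side contains no corner. -/
def T_NCK : Prop := ∀ (V : Type) [Finite V] (G : SimpleGraph V) (a b : Fin 3 → V) (n : Fin 3 → ℕ)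
  (P : Fin 3 → Set V) (i : Fin 3) (S : Set V), NOH G → NOP G → NK4 G → Sd G a b n P i S →
  (∀ (a' b' : Fin 3 → V) (n' : Fin 3 → ℕ) (P' : Fin 3 → Set V) (i' : Fin 3) (S' : Set V),
    Sd G a' b' n' P' i' S' → S.ncard ≤ S'.ncard) →
  ∀ (a' b' : Fin 3 → V) (n' : Fin 3 → ℕ) (P' : Fin 3 → Set V) (j : Fin 3), EPr G a' b' n' P' →
    a' j ∉ S ∧ b' j ∉ S

/-- (NCE) existence of a smallest side and of a vertex in it. -/
def T_NCE : Prop := ∀ (V : Type) [Finite V] (G : SimpleGraph V) (a b : Fin 3 → V) (n : Fin 3 → ℕ)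
  (P : Fin 3 → Set V), NOH G → NOP G → NK4 G → EPr G a b n P →
  ∃ (a' b' : Fin 3 → V) (n' : Fin 3 → ℕ) (P' : Fin 3 → Set V) (i : Fin 3) (S : Set V) (v : V),
    Sd G a' b' n' P' i S ∧ v ∈ S ∧ v ∈ P' i ∧ v ≠ a' i ∧ v ≠ b' i ∧
    ∀ (a'' b'' : Fin 3 → V) (n'' : Fin 3 → ℕ) (P'' : Fin 3 → Set V) (j : Fin 3),
      EPr G a'' b'' n'' P'' → a'' j ∉ S ∧ b'' j ∉ S

end Pool.Agent.H50.NC
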